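import Mathlib
import Pool.Agent.K3h65.PP.Main

/-!
# Polynomials of integers and of powers: every space-time pattern, with its frequency

Let `P` be a nonconstant polynomial with integer coefficients. For all but `C N ^ (1 - c)` of the `n < N`
the space-time diagram of the configuration of the integer `|P n|`, and also that of `|P (g ^ n)|`
for every odd integer `g ≠ ± 1`, shows all patterns of `D` times and `D` cells with the frequency which
the uniform Bernoulli measure gives to them, up to `ε`, along every row, every column and every other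
line with a direction vector of size at most `D` in the strip which is determined by the
`log₂ N` lowest binary digits of the integer.

More generally `n` and `g ^ n` can be replaced by any sequence `u` of integers which multiplies the small
2-adic distances by a constant. These families are very thin: there are about `log x` powers of `g` up
to `x`.

Proof. The patterns in the strip depend only on the residue class of the integer modulo
`2 ^ K`, `2 ^ K ≤ N < 2 ^ (K + 1)`. By the starting theorem on random configurations all but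
`C exp (- c K) 2 ^ K` of the residue classes are regular. If the derivative `P' (u n)` is not divisible
by `2 ^ V`, then the value `P (u n)` modulo `2 ^ K` determines `n` modulo `2 ^ (K - V - l)` in
each class modulo `2 ^ (V + μ)`; and the zeros of `P'` modulo `2 ^ V` lie in few residue classes.
-/

set_option autoImplicit false

open MeasureTheory

namespace Pool.Agent.Results.MP_cc0c1a_nt.PolynomialsOfPowers

open Pool.Agent.H429R2.Auto (F)

/-- The finite configuration of the integer `m`: its base-6 digits, with the units in the cell `0`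
(so that `α (digits m) = m`). -/
def digits (m : ℕ) : ℤ → Fin 6 := fun i =>
  if i ≤ 0 then ⟨m / 6 ^ (-i).toNat % 6, Nat.mod_lt _ (by norm_num)⟩ else 0

/-- the pattern `w` stands at the cell `(n, i)` of the space-time diagram of `x` -/
def Stands {D : ℕ} (w : Fin D → Fin D → Fin 6) (n : ℕ) (i : ℤ) (x : ℤ → Fin 6) : Prop :=
  ∀ a b : Fin D, F^[n + a] x (i + b) = w a b

/-- the uniform Bernoulli measure on the configurations: the cells are independent and uniformly
distributed on `{0, …, 5}` -/
noncomputable def bernoulli : Measure (ℤ → Fin 6) :=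
  Measure.infinitePi fun _ : ℤ => (PMF.uniformOfFintype (Fin 6)).toMeasure

/-- the cell `(n, i)` (time, cell) lies in the strip `0 ≤ n - i ≤ L`, `n + i ≥ 0`, reduced by
`δ L`, and `n ≤ A L` -/
def InStrip (A : ℕ) (δ L : ℝ) (n : ℕ) (i : ℤ) : Prop :=
  (n : ℝ) ≤ A * L ∧ δ * L ≤ (n : ℝ) - i ∧ (n : ℝ) - i ≤ (1 - δ) * L ∧ δ * L ≤ (n : ℝ) + i

/-- Along every line in the reduced strip all patterns stand with their frequencies, up to `ε`: let `w` be
a pattern of `D` times and `D` cells, `(a, b) ≠ (0, 0)` a direction with `0 ≤ a ≤ D` and `|b| ≤ D`, and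
let the cells `(n + t a, i + t b)`, `0 ≤ t < T`, lie in the reduced strip, where `T ≥ ε L`. Then the
number of the `t < T` for which `w` stands at the cell `(n + t a, i + t b)` differs from `T` times
the Bernoulli measure of the configurations in whose diagram `w` stands at `(0, 0)` by at most
`ε T`. -/
def Regular (A D : ℕ) (δ ε L : ℝ) (x : ℤ → Fin 6) : Prop :=
  ∀ (w : Fin D → Fin D → Fin 6) (a : ℕ) (b : ℤ), a ≤ D → |b| ≤ D → (a ≠ 0 ∨ b ≠ 0) →
    ∀ (n : ℕ) (i : ℤ) (T : ℕ), ε * L ≤ T → (∀ t < T, InStrip A δ L (n + t * a) (i + t * b)) →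
      |({t : ℕ | t < T ∧ Stands w (n + t * a) (i + t * b) x}.ncard : ℝ) -
        T * bernoulli.real {x | Stands w 0 0 x}| ≤ ε * T

/-- `u` multiplies small 2-adic distances by `2 ^ (-l)` -/
def Scaling (l μ : ℕ) (u : ℕ → ℤ) : Prop :=
  ∀ k, μ ≤ k → ∀ n n' : ℕ, (2 : ℤ) ^ (k + l) ∣ u n - u n' ↔ (2 : ℤ) ^ k ∣ (n : ℤ) - n'

theorem digits_eq (m : ℕ) : digits m = Pool.Agent.Y933.KH.dg (m : ℝ) := by
  funext i
  apply Fin.ext
  unfold digits Pool.Agent.Y933.KH.dg
  simp only
  split_ifs with h
  · obtain ⟨r, hr⟩ : ∃ r : ℕ, i = -(r : ℤ) := ⟨(-i).toNat, by omega⟩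
    subst hr
    have e : (6 : ℝ) ^ (-(r : ℤ)) * (m : ℝ) = (m : ℝ) / ((6 ^ r : ℕ) : ℝ) := by
      rw [zpow_neg, zpow_natCast]
      push_cast
      ring
    rw [e, Nat.floor_div_eq_div]
    simp
  · obtain ⟨r, hr⟩ : ∃ r : ℕ, i = ((r + 1 : ℕ) : ℤ) := ⟨(i - 1).toNat, by omega⟩
    subst hr
    have e : (6 : ℝ) ^ ((r + 1 : ℕ) : ℤ) * (m : ℝ) = ((6 * (6 ^ r * m) : ℕ) : ℝ) := by
      rw [zpow_natCast]
      push_cast
      ring
    rw [e, Nat.floor_natCast, Nat.mul_mod_right]
    rfl

theorem regular_iff (A D : ℕ) (δ ε L : ℝ) (x : ℤ → Fin 6) :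
    Regular A D δ ε L x ↔ Pool.Agent.K3h65.PP.Reg A D δ ε L x := by
  classical
  unfold Regular Pool.Agent.K3h65.PP.Reg
  refine forall_congr' fun w => forall_congr' fun a => forall_congr' fun b =>
    forall_congr' fun ha => forall_congr' fun hb => forall_congr' fun hab =>
    forall_congr' fun n => forall_congr' fun i => forall_congr' fun T =>
    forall_congr' fun hT => forall_congr' fun hs => ?_
  have e1 : ({t : ℕ | t < T ∧ Stands w (n + t * a) (i + t * b) x}.ncard) =
      Pool.Agent.Y933.KH.cnt w n i a b T x := by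
    unfold Pool.Agent.Y933.KH.cnt
    rw [← Set.ncard_coe_finset]
    congr 1
    ext t
    simp only [Set.mem_ofPred_eq, Finset.coe_filter, Finset.mem_range]
    rfl
  rw [e1]
  rfl

/-- **Main result.** (1) For all `A`, `D`, `δ, ε > 0`, all nonconstant polynomials `P` with integer
coefficients and all `l`, `μ` there are `c, C > 0` such that for all sequences `u` of integers
which satisfy `Scaling l μ u` and all `N ≥ 1`, all but at most `C N ^ (1 - c)` of the `n < N` are such that the
configuration of `|P (u n)|` is regular in the strip with `L = log₂ N`.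
(2) The sequence `n` is scaling, and (3) so is `g ^ n` for every odd integer `g ≠ ± 1`. -/
theorem result :
    (∀ (A D : ℕ) (δ ε : ℝ), 0 < δ → 0 < ε → ∀ P : Polynomial ℤ, P.natDegree ≠ 0 → ∀ l μ : ℕ,
      ∃ c C : ℝ, 0 < c ∧ 0 < C ∧ ∀ u : ℕ → ℤ, Scaling l μ u → ∀ N : ℕ, 1 ≤ N →
        ({n : ℕ | n < N ∧
          ¬ Regular A D δ ε (Real.logb 2 N) (digits (P.eval (u n)).natAbs)}.ncard : ℝ) ≤
          C * (N : ℝ) ^ (1 - c)) ∧
    Scaling 0 0 (fun n => n) ∧
    ∀ g : ℤ, Odd g → g ≠ 1 → g ≠ -1 → ∃ l : ℕ, Scaling l 1 (fun n => g ^ n) := by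
  classical
  refine ⟨fun A D δ ε hδ hε P hP l μ => ?_, Pool.Agent.K3h65.PP.iso_id, fun g hg h1 h2 =>
    Pool.Agent.K3h65.PP.iso_pow g hg h1 h2⟩
  obtain ⟨c, C, hc, hC, h⟩ := Pool.Agent.K3h65.PP.main A D δ ε hδ hε P hP l μ
  refine ⟨c, C, hc, hC, fun u hu N hN => ?_⟩
  refine le_trans (le_of_eq ?_) (h u hu N hN)
  rw [← Set.ncard_coe_finset]
  congr 2
  ext n
  simp only [Set.mem_ofPred_eq, Finset.coe_filter, Finset.mem_range]
  rw [regular_iff, digits_eq]

end Pool.Agent.Results.MP_cc0c1a_nt.PolynomialsOfPowers
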