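import Mathlib
import Pool.Agent.K3h54.RD.Fam

/-!
# Digits in random order: every pattern along a line

Take any configuration `y` and rewrite the cells `s, …, s + N - 1` by the digits of a word in which
no digit has more than `(1 - η) N` places, in random order.  Then, along every line of the space-time
diagram, for all but a proportion `ε` of the orders all the patterns of `D` times and `D` cells stand
in all the long windows of the line inside the reduced light cone with the frequency which the uniform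
Bernoulli measure gives to them, up to `ε`.
-/

set_option autoImplicit false

open MeasureTheory

namespace Pool.Agent.Results.MP_cc0c1a_nt.RandomOrder

open Pool.Agent.H429R2.Auto (F)

/-- the configuration `y` with the cells `s, …, s + N - 1` replaced by `v 0, …, v (N - 1)` -/
def rewrite (y : ℤ → Fin 6) (s : ℤ) {N : ℕ} (v : Fin N → Fin 6) : ℤ → Fin 6 := fun i =>
  if h : s ≤ i ∧ i < s + N then v ⟨(i - s).toNat, by omega⟩ else y i

/-- the pattern `w` stands at the cell `(n, i)` of the space-time diagram of `x` -/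
def Stands {D : ℕ} (w : Fin D → Fin D → Fin 6) (n : ℕ) (i : ℤ) (x : ℤ → Fin 6) : Prop :=
  ∀ a b : Fin D, F^[n + a] x (i + b) = w a b

/-- the uniform Bernoulli measure on the configurations: the cells are independent and uniformly
distributed on `{0, …, 5}` -/
noncomputable def bernoulli : Measure (ℤ → Fin 6) :=
  Measure.infinitePi fun _ : ℤ => (PMF.uniformOfFintype (Fin 6)).toMeasure

/-- the cell `(n, i)` lies in the light cone of the window `{s, …, s + N - 1}`, reduced by `δ N`, and
`δ N ≤ n ≤ A N` -/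
def InCone (A : ℕ) (δ : ℝ) (N : ℕ) (s : ℤ) (n : ℕ) (i : ℤ) : Prop :=
  δ * N ≤ n ∧ n ≤ A * N ∧ (s : ℝ) - n * (Real.log (3 / 2) / Real.log 6) + δ * N ≤ i ∧
    (i : ℝ) ≤ s + N + n - δ * N

/-- every pattern `w` of `D` times and `D` cells stands in every window of at least `ε N` consecutive
cells of the line `(n + t a, i + t b)`, `t ≥ 0`, inside the reduced light cone with its Bernoulli
frequency, up to `ε` -/
def Regular (A D : ℕ) (δ ε : ℝ) (N : ℕ) (s : ℤ) (n : ℕ) (i : ℤ) (a : ℕ) (b : ℤ)
    (x : ℤ → Fin 6) : Prop :=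
  ∀ (w : Fin D → Fin D → Fin 6) (t₀ T : ℕ), ε * N ≤ T →
    (∀ t < T, InCone A δ N s (n + (t₀ + t) * a) (i + (t₀ + t) * b)) →
    |({t : ℕ | t < T ∧ Stands w (n + (t₀ + t) * a) (i + (t₀ + t) * b) x}.ncard : ℝ) -
      T * bernoulli.real {x | Stands w 0 0 x}| ≤ ε * T

theorem regular_iff (A D : ℕ) (δ ε : ℝ) (N : ℕ) (s : ℤ) (n : ℕ) (i : ℤ) (a : ℕ) (b : ℤ)
    (x : ℤ → Fin 6) : Regular A D δ ε N s n i a b x ↔
      Pool.Agent.K3h54.RD.GoodL A D δ ε N s n i a b x := by
  classical
  unfold Regular Pool.Agent.K3h54.RD.GoodL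
  refine forall_congr' fun w => forall_congr' fun t₀ => forall_congr' fun T =>
    forall_congr' fun hT => ?_
  have e1 : ({t : ℕ | t < T ∧ Stands w (n + (t₀ + t) * a) (i + (t₀ + t) * b) x}.ncard) =
      Pool.Agent.Y933.KH.cnt w (n + t₀ * a) (i + (t₀ : ℤ) * b) a b T x := by
    unfold Pool.Agent.Y933.KH.cnt
    rw [← Set.ncard_coe_finset]
    congr 1
    ext t
    simp only [Set.mem_ofPred_eq, Finset.coe_filter, Finset.mem_range]
    have e2 : n + (t₀ + t) * a = n + t₀ * a + t * a := by ring
    have e3 : i + ((t₀ : ℤ) + t) * b = i + t₀ * b + t * b := by ring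
    rw [e2, e3]
    rfl
  have e4 : (∀ t < T, InCone A δ N s (n + (t₀ + t) * a) (i + (t₀ + t) * b)) ↔
      ∀ t < T, Pool.Agent.K3h54.RD.Inn A N δ s (n + (t₀ + t) * a) (i + ((t₀ + t : ℕ) : ℤ) * b) := by
    refine forall_congr' fun t => forall_congr' fun ht => ?_
    push_cast
    rfl
  rw [e1, e4]
  rfl

/-- For all `A`, `D` and `δ, ε, η > 0` there is an `N₀` such that for all `N ≥ N₀`, all configurations
`y`, all `s` and all lines (with a start `(n, i)` and a direction `(a, b) ≠ (0, 0)`, where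
`0 ≤ a ≤ D` and `|b| ≤ D`) the following holds. Let no digit be taken more than `(1 - η) N` times by
`d : {0, …, N - 1} → {0, …, 5}`. Then for at most `ε N!` of the permutations `σ` the configuration
which arises from `y` when the cells `s, …, s + N - 1` are replaced by `d (σ 0), …, d (σ (N - 1))` is
not regular along the line. -/
theorem result (A D : ℕ) (δ ε η : ℝ) (hδ : 0 < δ) (hε : 0 < ε) (hη : 0 < η) : ∃ N₀ : ℕ,
    ∀ N : ℕ, N₀ ≤ N → ∀ (y : ℤ → Fin 6) (s : ℤ) (n : ℕ) (i : ℤ) (a : ℕ) (b : ℤ), a ≤ D → |b| ≤ D →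
      (a ≠ 0 ∨ b ≠ 0) →
    ∀ d : Fin N → Fin 6, (∀ c, ({r | d r = c}.ncard : ℝ) ≤ (1 - η) * N) →
      ({σ : Equiv.Perm (Fin N) |
        ¬ Regular A D δ ε N s n i a b (rewrite y s fun r => d (σ r))}.ncard : ℝ) ≤
        ε * N.factorial := by
  classical
  obtain ⟨N2, h2⟩ := Pool.Agent.K3h54.RD.perms A D δ ε η hδ hε hη
  refine ⟨N2, fun N hN y s n i a b ha hb hab d hd => ?_⟩
  have h3 := h2 N hN y s a b ha hb hab n i d (fun c => by
    have := hd c
    rw [← Set.ncard_coe_finset]
    simpa using this)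
  refine le_trans (le_of_eq ?_) h3
  rw [← Set.ncard_coe_finset]
  congr 2
  ext σ
  simp only [Set.mem_ofPred_eq, Finset.coe_filter, Finset.mem_univ, true_and]
  rw [regular_iff]
  rfl

end Pool.Agent.Results.MP_cc0c1a_nt.RandomOrder
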