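import Mathlib
import Pool.Agent.K3h89.RD.Aut

/-!
# Words of a regular language: every pattern along a line

Take a deterministic finite automaton over the alphabet `{0, …, 5}` such that no two states are joined
by exactly one word of length `L`, take any configuration `y` and rewrite the cells `s, …, s + N - 1`
by a word of length `N` accepted by the automaton.  Then, along every line of the space-time diagram,
for all but a proportion `ε` of the accepted words all the patterns of `D` times and `D` cells stand in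
all the long windows of the line inside the reduced light cone with the frequency which the uniform
Bernoulli measure gives to them, up to `ε`.
-/

set_option autoImplicit false

open MeasureTheory

namespace Pool.Agent.Results.MP_cc0c1a_nt.RegularLanguages

open Pool.Agent.H429R2.Auto (F)

/-- the configuration `y` with the cells `s, …, s + N - 1` replaced by `v 0, …, v (N - 1)` -/
def rewrite (y : ℤ → Fin 6) (s : ℤ) {N : ℕ} (v : Fin N → Fin 6) : ℤ → Fin 6 := fun i =>
  if h : s ≤ i ∧ i < s + N then v ⟨(i - s).toNat, by omega⟩ else y i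

/-- the pattern `w` stands at the cell `(n, i)` of the space-time diagram of `x` -/
def Stands {D : ℕ} (w : Fin D → Fin D → Fin 6) (n : ℕ) (i : ℤ) (x : ℤ → Fin 6) : Prop :=
  ∀ a b : Fin D, F^[n + a] x (i + b) = w a b

/-- the uniform Bernoulli measure on the configurations: the cells are independent and uniformly
distributed on `{0, …, 5}` -/
noncomputable def bernoulli : Measure (ℤ → Fin 6) :=
  Measure.infinitePi fun _ : ℤ => (PMF.uniformOfFintype (Fin 6)).toMeasure

/-- the cell `(n, i)` lies in the light cone of the window `{s, …, s + N - 1}`, reduced by `δ N`, and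
`δ N ≤ n ≤ A N` -/
def InCone (A : ℕ) (δ : ℝ) (N : ℕ) (s : ℤ) (n : ℕ) (i : ℤ) : Prop :=
  δ * N ≤ n ∧ n ≤ A * N ∧ (s : ℝ) - n * (Real.log (3 / 2) / Real.log 6) + δ * N ≤ i ∧
    (i : ℝ) ≤ s + N + n - δ * N

/-- every pattern `w` of `D` times and `D` cells stands in every window of at least `ε N` consecutive
cells of the line `(n + t a, i + t b)`, `t ≥ 0`, inside the reduced light cone with its Bernoulli
frequency, up to `ε` -/
def Regular (A D : ℕ) (δ ε : ℝ) (N : ℕ) (s : ℤ) (n : ℕ) (i : ℤ) (a : ℕ) (b : ℤ)
    (x : ℤ → Fin 6) : Prop :=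
  ∀ (w : Fin D → Fin D → Fin 6) (t₀ T : ℕ), ε * N ≤ T →
    (∀ t < T, InCone A δ N s (n + (t₀ + t) * a) (i + (t₀ + t) * b)) →
    |({t : ℕ | t < T ∧ Stands w (n + (t₀ + t) * a) (i + (t₀ + t) * b) x}.ncard : ℝ) -
      T * bernoulli.real {x | Stands w 0 0 x}| ≤ ε * T

theorem regular_iff (A D : ℕ) (δ ε : ℝ) (N : ℕ) (s : ℤ) (n : ℕ) (i : ℤ) (a : ℕ) (b : ℤ)
    (x : ℤ → Fin 6) : Regular A D δ ε N s n i a b x ↔
      Pool.Agent.K3h54.RD.GoodL A D δ ε N s n i a b x := by
  classical
  unfold Regular Pool.Agent.K3h54.RD.GoodL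
  refine forall_congr' fun w => forall_congr' fun t₀ => forall_congr' fun T =>
    forall_congr' fun hT => ?_
  have e1 : ({t : ℕ | t < T ∧ Stands w (n + (t₀ + t) * a) (i + (t₀ + t) * b) x}.ncard) =
      Pool.Agent.Y933.KH.cnt w (n + t₀ * a) (i + (t₀ : ℤ) * b) a b T x := by
    unfold Pool.Agent.Y933.KH.cnt
    rw [← Set.ncard_coe_finset]
    congr 1
    ext t
    simp only [Set.mem_ofPred_eq, Finset.coe_filter, Finset.mem_range]
    have e2 : n + (t₀ + t) * a = n + t₀ * a + t * a := by ring
    have e3 : i + ((t₀ : ℤ) + t) * b = i + t₀ * b + t * b := by ring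
    rw [e2, e3]
    rfl
  have e4 : (∀ t < T, InCone A δ N s (n + (t₀ + t) * a) (i + (t₀ + t) * b)) ↔
      ∀ t < T, Pool.Agent.K3h54.RD.Inn A N δ s (n + (t₀ + t) * a) (i + ((t₀ + t : ℕ) : ℤ) * b) := by
    refine forall_congr' fun t => forall_congr' fun ht => ?_
    push_cast
    rfl
  rw [e1, e4]
  rfl

/-- the state which a deterministic automaton with the transition function `step` reaches from the
state `q` with the word `u` -/
def run {Q : Type} (step : Q → Fin 6 → Q) (q : Q) {l : ℕ} (u : Fin l → Fin 6) : Q :=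
  (List.ofFn u).foldl step q

lemma mp_run {Q : Type} [Fintype Q] [DecidableEq Q] (step : Q → Fin 6 → Q)
    (G : ℕ → Fin 6 → Matrix Q Q ℝ) (hG : ∀ r c p p', G r c p p' = if step p c = p' then 1 else 0) :
    ∀ (l r : ℕ) (u : Fin l → Fin 6) (q q' : Q),
    Pool.Agent.K3h89.RD.mp G r u q q' = if run step q u = q' then 1 else 0 := by
  intro l
  induction l with
  | zero =>
      intro r u q q'
      unfold Pool.Agent.K3h89.RD.mp run
      rw [List.ofFn_zero, List.ofFn_zero, List.prod_nil, List.foldl_nil, Matrix.one_apply]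
  | succ l ih =>
      intro r u q q'
      have h1 : Pool.Agent.K3h89.RD.mp G r u =
          G r (u 0) * Pool.Agent.K3h89.RD.mp G (r + 1) (fun j => u j.succ) := by
        unfold Pool.Agent.K3h89.RD.mp
        rw [List.ofFn_succ, List.prod_cons]
        congr 2
        congr 1
        funext j
        rw [Fin.val_succ]
        congr 1
        omega
      rw [h1, Matrix.mul_apply, Finset.sum_eq_single (step q (u 0))]
      · rw [hG, if_pos rfl, one_mul, ih]
        unfold run
        rw [List.ofFn_succ, List.foldl_cons]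
      · intro p _ hp
        rw [hG, if_neg (Ne.symm hp), zero_mul]
      · intro h
        exact absurd (Finset.mem_univ _) h

/-- For all `A`, `D`, `L ≥ 1` and `δ, ε > 0` there is an `N₀` such that for all `N ≥ N₀`, all
configurations `y`, all `s` and all lines (with a start `(n, i)` and a direction `(a, b) ≠ (0, 0)`, where
`0 ≤ a ≤ D` and `|b| ≤ D`) the following holds. Let a deterministic finite automaton with the transition
function `step` be such that there are no two states `q`, `q'` (equal or not) for which exactly one word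
of `L` digits leads from `q` to `q'`. Then, for every initial state `q₀` and every set `Acc` of accepting
states, the number of the accepted words `v` of `N` digits for which the configuration which arises from
`y` when the cells `s, …, s + N - 1` are replaced by `v` is not regular along the line is at most `ε`
times the number of all accepted words of `N` digits. -/
theorem result (A D L : ℕ) (δ ε : ℝ) (hL : 1 ≤ L) (hδ : 0 < δ) (hε : 0 < ε) :
    ∃ N₀ : ℕ, ∀ N : ℕ, N₀ ≤ N → ∀ (y : ℤ → Fin 6) (s : ℤ) (n : ℕ) (i : ℤ) (a : ℕ) (b : ℤ),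
      a ≤ D → |b| ≤ D → (a ≠ 0 ∨ b ≠ 0) →
    ∀ (Q : Type) [Finite Q] (step : Q → Fin 6 → Q),
      (∀ q q' : Q, {u : Fin L → Fin 6 | run step q u = q'}.ncard ≠ 1) → ∀ (q₀ : Q) (Acc : Set Q),
      ({v : Fin N → Fin 6 | run step q₀ v ∈ Acc ∧
        ¬ Regular A D δ ε N s n i a b (rewrite y s v)}.ncard : ℝ) ≤
        ε * {v : Fin N → Fin 6 | run step q₀ v ∈ Acc}.ncard := by
  classical
  obtain ⟨N2, h2⟩ := Pool.Agent.K3h89.RD.aut A D L δ ε (1 / 2) hL hδ hε (by norm_num)
  refine ⟨N2, fun N hN y s n i a b ha hb hab => ?_⟩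
  intro Q _ step hst q₀ Acc
  haveI : Fintype Q := Fintype.ofFinite Q
  obtain ⟨G, hGdef⟩ : ∃ G : ℕ → Fin 6 → Matrix Q Q ℝ,
      G = fun _ c => Matrix.of fun p p' => if step p c = p' then (1 : ℝ) else 0 := ⟨_, rfl⟩
  have hrun : ∀ (l r : ℕ) (u : Fin l → Fin 6) (q q' : Q),
      Pool.Agent.K3h89.RD.mp G r u q q' = if run step q u = q' then 1 else 0 := by
    exact mp_run step G fun r c p p' => by rw [hGdef]; rfl
  have hG : ∀ (r : ℕ) (c : Fin 6) (q q' : Q), 0 ≤ G r c q q' := by
    intro r c q q'
    rw [hGdef]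
    show (0 : ℝ) ≤ if step q c = q' then 1 else 0
    split_ifs <;> norm_num
  have hsum : ∀ (l r : ℕ) (q q' : Q), Pool.Agent.K3h89.RD.Rm G r l q q' =
      ({u : Fin l → Fin 6 | run step q u = q'}.ncard : ℝ) := by
    intro l r q q'
    unfold Pool.Agent.K3h89.RD.Rm
    rw [Finset.sum_congr rfl fun u _ => hrun l r u q q', Finset.sum_boole, ← Set.ncard_coe_finset]
    congr 2
    ext u
    simp
  have hat : ∀ r, r + L ≤ N → ∀ (u : Fin L → Fin 6) (q q' : Q), Pool.Agent.K3h89.RD.mp G r u q q' ≤
      (1 - 1 / 2) * Pool.Agent.K3h89.RD.Rm G r L q q' := by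
    intro r _ u q q'
    rw [hsum, hrun]
    have h3 := hst q q'
    by_cases h4 : run step q u = q'
    · rw [if_pos h4]
      have h5 : 0 < {u : Fin L → Fin 6 | run step q u = q'}.ncard :=
        (Set.ncard_pos (Set.toFinite _)).2 ⟨u, h4⟩
      have h6 : (2 : ℝ) ≤ ({u : Fin L → Fin 6 | run step q u = q'}.ncard : ℝ) := by
        exact_mod_cast (by omega : 2 ≤ {u : Fin L → Fin 6 | run step q u = q'}.ncard)
      linarith
    · rw [if_neg h4]
      positivity
  have h3 : ∀ q' : Q, (({v : Fin N → Fin 6 | run step q₀ v = q' ∧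
      ¬ Regular A D δ ε N s n i a b (rewrite y s v)}.ncard : ℕ) : ℝ) ≤
      ε * ({v : Fin N → Fin 6 | run step q₀ v = q'}.ncard : ℕ) := by
    intro q'
    have h4 := h2 N hN y s a b ha hb hab n i Q G hG hat q₀ q'
    rw [hsum] at h4
    refine le_trans (le_of_eq ?_) h4
    rw [← Finset.sum_filter, Finset.sum_congr rfl fun v _ => hrun N 0 v q₀ q', Finset.sum_boole,
      ← Set.ncard_coe_finset]
    congr 2
    ext v
    simp only [Set.mem_ofPred_eq, Finset.coe_filter, Finset.mem_filter, Finset.mem_univ, true_and]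
    rw [regular_iff]
    exact and_comm
  have h6 : ∀ P : (Fin N → Fin 6) → Prop, ({v : Fin N → Fin 6 | run step q₀ v ∈ Acc ∧ P v}.ncard : ℝ) =
      ∑ q' ∈ Finset.univ.filter (· ∈ Acc), ({v : Fin N → Fin 6 | run step q₀ v = q' ∧ P v}.ncard : ℝ) := by
    intro P
    have h7 : ∀ S : Set (Fin N → Fin 6), S.ncard = (Finset.univ.filter (· ∈ S)).card := by
      intro S
      rw [← Set.ncard_coe_finset]
      congr 1
      ext v
      simp
    simp only [h7]
    rw [← Nat.cast_sum]
    congr 1
    rw [Finset.card_eq_sum_card_fiberwise (f := fun v => run step q₀ v) (t := Finset.univ.filter (· ∈ Acc))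
      (by
        intro v hv
        simp only [Finset.coe_filter, Finset.mem_univ, true_and, Set.mem_ofPred_eq] at hv ⊢
        exact hv.1)]
    refine Finset.sum_congr rfl fun q' hq' => ?_
    congr 1
    ext v
    simp only [Finset.mem_filter, Finset.mem_univ, true_and, Set.mem_ofPred_eq] at hq' ⊢
    constructor
    · rintro ⟨⟨_, h9⟩, h10⟩
      exact ⟨h10, h9⟩
    · rintro ⟨h9, h10⟩
      exact ⟨⟨by rw [h9]; exact hq', h10⟩, h9⟩
  have h7 := h6 (fun _ => True)
  simp only [and_true] at h7
  rw [h6, h7, Finset.mul_sum]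
  exact Finset.sum_le_sum fun q' _ => h3 q'

end Pool.Agent.Results.MP_cc0c1a_nt.RegularLanguages
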